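import Pool.Agent.Run7.h444.ER5
import Pool.Agent.Y151.PV.Hyp

/-!
# Central hyperplane sections from the symmetric sets
-/

set_option autoImplicit false

namespace Run7.h110.KLS

open MeasureTheory Set Filter Topology
open scoped ENNReal InnerProductSpace Pointwise
open Pool.Agent.W695.KH (Eu EU EV VV Sm Pot Uu WPo sec PerLe sec_bound perim)
open Pool.Agent.H212R2.KLS (mu Bdd)
open Pool.Agent.H888R2.KT (LC)
open Pool.Agent.H888R2.KT.N9x (W W_le mass_pos)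
open Pool.Agent.W932.KH (closure_ae EV_scale q_max q_pos q_integrable)
open Run7.h444.ER

section poinc

variable {κ : Type} [Fintype κ]

/-- Poincare inequality for a symmetric body from the isoperimetric inequality for symmetric sets
(first part of the proof of `Run7.h444.ER.sets`) -/
theorem poinc (K : Set (Eu κ)) (hK : IsCompact K) (hc : Convex ℝ K) (hvol : 0 < volume K)
    (hsym : ∀ x ∈ K, -x ∈ K) (μ : Measure (Eu κ)) (hμ : μ = (volume K)⁻¹ • volume.restrict K)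
    (t s : ℝ) (ht : 0 < t) (hs : 0 ≤ s)
    (hcov : ∀ w : Eu κ, EV K (fun x => ⟪x, w⟫_ℝ ^ 2) ≤ s * ‖w‖ ^ 2)
    (H : ∀ S : Set (Eu κ), MeasurableSet S → (∀ x, x ∈ S → -x ∈ S) →
      ENNReal.ofReal t * min (μ S) (μ Sᶜ) ≤ bd μ S)
    (v : Eu κ → ℝ) (hv : ContDiff ℝ 1 v) :
    VV K v ≤ (16 / t ^ 2 + 8 * s) * EV K fun x => ‖fderiv ℝ v x‖ ^ 2 := by
  obtain ⟨hmu, hLC⟩ := lc_ind hK hc hvol
  have hfin : volume K ≠ ⊤ := hK.measure_lt_top.ne
  have hV : 0 < (volume K).toReal := ENNReal.toReal_pos hvol.ne' hfin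
  have hprob : IsProbabilityMeasure μ := by
    refine ⟨?_⟩
    rw [hμ, Measure.smul_apply, Measure.restrict_apply_univ, smul_eq_mul,
      ENNReal.inv_mul_cancel hvol.ne' hfin]
  have hint : ∀ g : Eu κ → ℝ, ∫ x, g x ∂μ = ((volume K).toReal)⁻¹ * ∫ x in K, g x := by
    intro g
    rw [hμ, integral_smul_measure, ENNReal.toReal_inv, smul_eq_mul]
  have hμc : μ Kᶜ = 0 := by
    rw [hμ, Measure.smul_apply, Measure.restrict_apply hK.measurableSet.compl, compl_inter_self,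
      measure_empty, smul_zero]
  have hreal : (mu (K.indicator fun _ => (1 : ℝ))).real univ = (volume K).toReal := by
    rw [hmu, Measure.real, Measure.restrict_apply_univ]
  have heven : ∀ f : Eu κ → ℝ, ContDiff ℝ 1 f → (∀ x, f (-x) = f x) →
      ∃ c : ℝ, ∫ x, (f x - c) ^ 2 ∂(mu (K.indicator fun _ => (1 : ℝ))) ≤
        4 / t ^ 2 * ∫ x, ‖fderiv ℝ f x‖ ^ 2 ∂(mu (K.indicator fun _ => (1 : ℝ))) := by
    intro f hf he
    obtain ⟨m, hm⟩ := even_poinc μ hK hμc t ht H hf he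
    refine ⟨m, ?_⟩
    rw [hmu]
    rw [hint, hint] at hm
    have h1 := mul_le_mul_of_nonneg_left hm hV.le
    have e1 : ∀ a : ℝ, (volume K).toReal * (((volume K).toReal)⁻¹ * a) = a := by
      intro a
      field_simp
    have e2 : ∀ a b : ℝ, (volume K).toReal * (b * (((volume K).toReal)⁻¹ * a)) = b * a := by
      intro a b
      field_simp
    rw [e1, e2] at h1
    exact h1
  have heven' : ∀ x, (K.indicator fun _ => (1 : ℝ)) (-x) = (K.indicator fun _ => (1 : ℝ)) x := by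
    intro x
    by_cases hx : x ∈ K
    · rw [indicator_of_mem hx, indicator_of_mem (hsym x hx)]
    · rw [indicator_of_notMem hx, indicator_of_notMem fun h => hx (by simpa using hsym _ h)]
  have hcov' : ∀ w : Eu κ, ∫ x, ⟪x, w⟫_ℝ ^ 2 ∂(mu (K.indicator fun _ => (1 : ℝ))) ≤
      s * ‖w‖ ^ 2 * (mu (K.indicator fun _ => (1 : ℝ))).real univ := by
    intro w
    have h1 := hcov w
    unfold EV at h1
    rw [div_le_iff₀ hV] at h1
    rw [hreal, hmu]
    exact h1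
  have h1 := all hLC heven' (4 / t ^ 2) s (by positivity) hs hcov' heven v hv
  unfold W at h1
  rw [hreal, hmu] at h1
  unfold VV EV
  have h2 : ∀ a b V : ℝ, 0 < V → a / V - (b / V) ^ 2 = (a - b ^ 2 / V) / V := by
    intro a b V hV
    field_simp
  rw [h2 _ _ _ hV, ← mul_div_assoc, div_le_div_iff_of_pos_right hV]
  refine h1.trans_eq ?_
  ring

end poinc

section lower

variable {κ : Type} [Fintype κ] {Ω : Set (Eu κ)}

/-- half of the volume is on the side `0 < ⟪u, x⟫` -/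
theorem half_le (ho : IsOpen Ω) (hsym : ∀ x ∈ Ω, -x ∈ Ω) (u : Eu κ) (hu : u ≠ 0) :
    volume Ω ≤ 2 * volume (Ω ∩ {x | 0 < ⟪u, x⟫_ℝ}) := by
  have h1 : volume (Ω ∩ {x | ⟪u, x⟫_ℝ < 0}) = volume (Ω ∩ {x | 0 < ⟪u, x⟫_ℝ}) := by
    have e : Ω ∩ {x | ⟪u, x⟫_ℝ < 0} = (fun x => -x) ⁻¹' (Ω ∩ {x | 0 < ⟪u, x⟫_ℝ}) := by
      ext x
      simp only [mem_inter_iff, mem_ofPred_eq, mem_preimage, inner_neg_right, Left.neg_pos_iff]
      exact ⟨fun h => ⟨hsym x h.1, h.2⟩, fun h => ⟨by simpa using hsym _ h.1, h.2⟩⟩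
    rw [e]
    exact (Measure.measurePreserving_neg (volume : Measure (Eu κ))).measure_preimage
      (ho.measurableSet.inter (measurableSet_lt measurable_const
        (by fun_prop : Measurable fun x : Eu κ => ⟪u, x⟫_ℝ))).nullMeasurableSet
  have h2 : volume {x : Eu κ | ⟪u, x⟫_ℝ = 0} = 0 := by
    have e : {x : Eu κ | ⟪u, x⟫_ℝ = 0} = ((ℝ ∙ u)ᗮ : Submodule ℝ (Eu κ)) := by
      ext x
      simp only [mem_ofPred_eq, SetLike.mem_coe, Submodule.mem_orthogonal_singleton_iff_inner_right]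
    rw [e]
    refine Measure.addHaar_submodule volume _ fun h => hu ?_
    have : u ∈ ((ℝ ∙ u)ᗮ : Submodule ℝ (Eu κ)) := by rw [h]; exact Submodule.mem_top
    rw [Submodule.mem_orthogonal_singleton_iff_inner_right] at this
    exact inner_self_eq_zero.1 this
  calc volume Ω ≤ volume ((Ω ∩ {x | 0 < ⟪u, x⟫_ℝ}) ∪ (Ω ∩ {x | ⟪u, x⟫_ℝ < 0}) ∪
        {x | ⟪u, x⟫_ℝ = 0}) := by
        refine measure_mono fun x hx => ?_
        rcases lt_trichotomy (0 : ℝ) ⟪u, x⟫_ℝ with h | h | h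
        · exact Or.inl (Or.inl ⟨hx, h⟩)
        · exact Or.inr h.symm
        · exact Or.inl (Or.inr ⟨hx, h⟩)
    _ ≤ volume (Ω ∩ {x | 0 < ⟪u, x⟫_ℝ}) + volume (Ω ∩ {x | ⟪u, x⟫_ℝ < 0}) +
        volume {x | ⟪u, x⟫_ℝ = 0} :=
        (measure_union_le _ _).trans (add_le_add_left (measure_union_le _ _) _)
    _ = _ := by rw [h1, h2, add_zero, two_mul]

/-- the section by `u^⊥` is not small -/
theorem sec_lower (ho : IsOpen Ω) (hconv : Convex ℝ Ω) (hbd : Bornology.IsBounded Ω)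
    (h0 : (0 : Eu κ) ∈ Ω) (hsym : ∀ x ∈ Ω, -x ∈ Ω) (u : Eu κ) (hu : ‖u‖ = 1) (s : ℝ) (hs : 0 < s)
    (hv : EV Ω (fun x => ⟪u, x⟫_ℝ ^ 2) ≤ s) :
    (volume Ω).toReal ≤ 8 * Real.sqrt s * (sec Ω u).toReal := by
  obtain ⟨C, hC, hsec⟩ := sec_bound
  obtain ⟨g1, -, g3⟩ := hsec κ Ω ho hconv hbd h0 hsym u hu
  have hu0 : u ≠ 0 := by
    rintro rfl
    rw [norm_zero] at hu
    exact zero_ne_one hu
  have hfin : volume Ω ≠ ⊤ := hbd.measure_lt_top.ne
  have hV : 0 < (volume Ω).toReal := ENNReal.toReal_pos (ho.measure_pos volume ⟨0, h0⟩).ne' hfin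
  have hss : 0 < Real.sqrt s := Real.sqrt_pos.2 hs
  obtain ⟨ε, hε⟩ : ∃ ε, ε = 2 * Real.sqrt s := ⟨_, rfl⟩
  have hε0 : 0 < ε := by rw [hε]; positivity
  have hε2 : ε ^ 2 = 4 * s := by
    rw [hε, mul_pow, Real.sq_sqrt hs.le]
    norm_num
  -- the far part
  have hfar : (volume (Ω ∩ {x | ε < ⟪u, x⟫_ℝ})).toReal ≤ (volume Ω).toReal / 4 := by
    have hi := q_integrable ho hbd u
    have h1 : ε ^ 2 * (volume (Ω ∩ {x | ε < ⟪u, x⟫_ℝ})).toReal ≤ ∫ x in Ω, ⟪u, x⟫_ℝ ^ 2 := by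
      have hm : MeasurableSet {x : Eu κ | ε < ⟪u, x⟫_ℝ} := measurableSet_lt measurable_const
        (by fun_prop : Measurable fun x : Eu κ => ⟪u, x⟫_ℝ)
      have h2 : ∫ x in Ω ∩ {x | ε < ⟪u, x⟫_ℝ}, ε ^ 2 =
          ε ^ 2 * (volume (Ω ∩ {x | ε < ⟪u, x⟫_ℝ})).toReal := by
        rw [setIntegral_const, smul_eq_mul, mul_comm]
        rfl
      rw [← h2]
      calc ∫ x in Ω ∩ {x | ε < ⟪u, x⟫_ℝ}, ε ^ 2
          ≤ ∫ x in Ω ∩ {x | ε < ⟪u, x⟫_ℝ}, ⟪u, x⟫_ℝ ^ 2 := by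
            refine setIntegral_mono_on ?_ (hi.mono_set inter_subset_left)
              (ho.measurableSet.inter hm) fun x hx => ?_
            · exact integrableOn_const (ne_top_of_le_ne_top hfin (measure_mono inter_subset_left))
            · have h3 : ε < ⟪u, x⟫_ℝ := hx.2
              nlinarith
        _ ≤ ∫ x in Ω, ⟪u, x⟫_ℝ ^ 2 :=
            setIntegral_mono_set hi (Eventually.of_forall fun x => sq_nonneg _)
              inter_subset_left.eventuallyLE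
    unfold EV at hv
    rw [div_le_iff₀ hV] at hv
    rw [hε2] at h1
    nlinarith
  have hnear : (volume (Ω ∩ {x | 0 < ⟪u, x⟫_ℝ ∧ ⟪u, x⟫_ℝ ≤ ε})).toReal ≤
      ε * (sec Ω u).toReal := by
    have h1 := g3 ε hε0
    have h2 := ENNReal.toReal_mono (ENNReal.mul_ne_top ENNReal.ofReal_ne_top g1) h1
    rwa [ENNReal.toReal_mul, ENNReal.toReal_ofReal hε0.le] at h2
  have hhalf : (volume Ω).toReal ≤ 2 * ((volume (Ω ∩ {x | 0 < ⟪u, x⟫_ℝ ∧ ⟪u, x⟫_ℝ ≤ ε})).toReal +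
      (volume (Ω ∩ {x | ε < ⟪u, x⟫_ℝ})).toReal) := by
    have hf : ∀ S : Set (Eu κ), volume (Ω ∩ S) ≠ ⊤ := fun S =>
      ne_top_of_le_ne_top hfin (measure_mono inter_subset_left)
    rw [← ENNReal.toReal_add (hf _) (hf _)]
    have h1 := half_le ho hsym u hu0
    have h2 : volume (Ω ∩ {x | 0 < ⟪u, x⟫_ℝ}) ≤
        volume (Ω ∩ {x | 0 < ⟪u, x⟫_ℝ ∧ ⟪u, x⟫_ℝ ≤ ε}) + volume (Ω ∩ {x | ε < ⟪u, x⟫_ℝ}) := by
      refine (measure_mono fun x hx => ?_).trans (measure_union_le _ _)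
      by_cases h : ⟪u, x⟫_ℝ ≤ ε
      · exact Or.inl ⟨hx.1, hx.2, h⟩
      · exact Or.inr ⟨hx.1, not_le.1 h⟩
    have h3 := ENNReal.toReal_mono (ENNReal.mul_ne_top ENNReal.ofNat_ne_top
      (ENNReal.add_ne_top.2 ⟨hf _, hf _⟩)) (h1.trans (mul_le_mul_right h2 2))
    rw [ENNReal.toReal_mul] at h3
    simpa using h3
  rw [hε] at hnear hfar hhalf
  nlinarith

/-- the sections by hyperplanes are bounded below -/
theorem sec_pos [Nonempty κ] (ho : IsOpen Ω) (hconv : Convex ℝ Ω) (hbd : Bornology.IsBounded Ω)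
    (h0 : (0 : Eu κ) ∈ Ω) (hsym : ∀ x ∈ Ω, -x ∈ Ω) :
    ∃ B : ℝ, 0 < B ∧ ∀ u : Eu κ, ‖u‖ = 1 → B ≤ (sec Ω u).toReal := by
  obtain ⟨a, ha, hmax⟩ := q_max (Ω := Ω) ho hbd
  have hspos : 0 < EV Ω (fun x => ⟪a, x⟫_ℝ ^ 2) := q_pos ho hbd h0 a ha
  have hvol : 0 < (volume Ω).toReal :=
    ENNReal.toReal_pos (ho.measure_pos volume ⟨0, h0⟩).ne' hbd.measure_lt_top.ne
  have hss : 0 < Real.sqrt (EV Ω (fun x => ⟪a, x⟫_ℝ ^ 2)) := Real.sqrt_pos.2 hspos
  refine ⟨(volume Ω).toReal / (8 * Real.sqrt (EV Ω (fun x => ⟪a, x⟫_ℝ ^ 2))), by positivity,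
    fun u hu => ?_⟩
  have h1 : EV Ω (fun x => ⟪u, x⟫_ℝ ^ 2) ≤ EV Ω (fun x => ⟪a, x⟫_ℝ ^ 2) := by
    have := hmax u
    rwa [hu, one_pow, mul_one] at this
  have h2 := sec_lower ho hconv hbd h0 hsym u hu _ hspos h1
  rw [div_le_iff₀ (by positivity)]
  linarith

end lower

section main

variable {n : ℕ}

/-- the functional inequality gives central sections, for symmetric open convex sets with the
isoperimetric inequality for symmetric sets -/
theorem main : ∃ C : ℝ, 0 < C ∧ ∀ (n : ℕ), 1 ≤ n → ∀ Ω : Set (Eu (Fin n)), IsOpen Ω → Convex ℝ Ω →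
    Bornology.IsBounded Ω → (0 : Eu (Fin n)) ∈ Ω → (∀ x ∈ Ω, -x ∈ Ω) →
    ∀ (A D : ℝ), 0 < A → 1 ≤ D →
      (∀ B : ℝ, (∀ u : Eu (Fin n), ‖u‖ = 1 → B ≤ (sec Ω u).toReal) → B ≤ A) →
    ∀ μ : Measure (Eu (Fin n)), μ = (volume (closure Ω))⁻¹ • volume.restrict (closure Ω) →
    (∀ S : Set (Eu (Fin n)), MeasurableSet S → (∀ x, x ∈ S → -x ∈ S) →
      ENNReal.ofReal (A / (D * (volume Ω).toReal)) * min (μ S) (μ Sᶜ) ≤ bd μ S) →
    ∃ a : Eu (Fin n), a ≠ 0 ∧ ∀ E : Set (Eu (Fin n)), MeasurableSet E → E ⊆ Ω →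
      volume E = volume Ω / 2 → ∀ P : ℝ, PerLe Ω E P →
        sec Ω a ≤ ENNReal.ofReal (C * D * P) := by
  obtain ⟨Cs, hCs, hs⟩ := sec_bound
  refine ⟨Real.sqrt Cs * 1530, by positivity, ?_⟩
  intro n hn Ω ho hconv hbd h0 hsym A D hA hD hAinf μ hμ H
  have hne : Nonempty (Fin n) := ⟨⟨0, by omega⟩⟩
  obtain ⟨a, ha, hmax⟩ := q_max (Ω := Ω) ho hbd
  set s := EV Ω (fun x => ⟪a, x⟫_ℝ ^ 2) with hsdef
  have hspos : 0 < s := q_pos ho hbd h0 a ha
  have hfin : volume Ω < ⊤ := hbd.measure_lt_top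
  have hvol : 0 < (volume Ω).toReal :=
    ENNReal.toReal_pos (ho.measure_pos volume ⟨0, h0⟩).ne' hfin.ne
  have hss : 0 < Real.sqrt s := Real.sqrt_pos.2 hspos
  have hDm : MeasurableSet (closure Ω) := isClosed_closure.measurableSet
  have hcl : IsCompact (closure Ω) := hbd.isCompact_closure
  have hcc : Convex ℝ (closure Ω) := hconv.closure
  have hvc : volume (closure Ω) = volume Ω := measure_congr (closure_ae ho hconv)
  have hvcl : 0 < volume (closure Ω) := by rw [hvc]; exact ho.measure_pos volume ⟨0, h0⟩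
  have hscl : ∀ x ∈ closure Ω, -x ∈ closure Ω := by
    intro x hx
    have h1 : closure Ω ⊆ (fun x => -x) ⁻¹' closure Ω :=
      closure_minimal (fun y hy => subset_closure (hsym y hy))
        (isClosed_closure.preimage continuous_neg)
    exact h1 hx
  have hEVc : ∀ f : Eu (Fin n) → ℝ, EV (closure Ω) f = EV Ω f :=
    fun f => Pool.Agent.Y151.PV.EV_closure ho hconv f
  refine ⟨a, ?_, ?_⟩
  · rintro rfl
    rw [norm_zero] at ha
    exact zero_ne_one ha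
  -- the Poincare inequality
  obtain ⟨t, ht⟩ : ∃ t, t = A / (D * (volume Ω).toReal) := ⟨_, rfl⟩
  have ht0 : 0 < t := by rw [ht]; positivity
  rw [← ht] at H
  have hcov : ∀ w : Eu (Fin n), EV (closure Ω) (fun x => ⟪x, w⟫_ℝ ^ 2) ≤ s * ‖w‖ ^ 2 := by
    intro w
    rw [hEVc]
    have h1 := hmax w
    simpa only [real_inner_comm] using h1
  have hP := poinc (closure Ω) hcl hcc hvcl hscl μ hμ t s ht0 hspos.le hcov H
  obtain ⟨C, hC⟩ : ∃ C, C = 16 / t ^ 2 + 8 * s := ⟨_, rfl⟩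
  rw [← hC] at hP
  have hC0 : 0 < C := by rw [hC]; positivity
  -- the size of `t`
  have hAlow : (volume Ω).toReal ≤ 8 * Real.sqrt s * A := by
    have h3 := hAinf ((volume Ω).toReal / (8 * Real.sqrt s)) (fun u hu => by
      have h1 : EV Ω (fun x => ⟪u, x⟫_ℝ ^ 2) ≤ s := by
        have := hmax u
        rwa [hu, one_pow, mul_one] at this
      have h2 := sec_lower ho hconv hbd h0 hsym u hu s hspos h1
      rw [div_le_iff₀ (by positivity)]
      linarith)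
    rw [div_le_iff₀ (by positivity)] at h3
    linarith
  have hCle : C ≤ 1032 * D ^ 2 * s := by
    have h1 : 16 / t ^ 2 ≤ 1024 * D ^ 2 * s := by
      rw [ht, div_le_iff₀ (by positivity), div_pow, mul_pow]
      have h2 : (volume Ω).toReal ^ 2 ≤ 64 * s * A ^ 2 := by
        refine (pow_le_pow_left₀ hvol.le hAlow 2).trans (le_of_eq ?_)
        rw [mul_pow, mul_pow, Real.sq_sqrt hspos.le]
        norm_num
      have h3 : 1024 * D ^ 2 * s * (A ^ 2 / (D ^ 2 * (volume Ω).toReal ^ 2)) =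
          1024 * s * A ^ 2 / (volume Ω).toReal ^ 2 := by
        field_simp
      rw [h3, le_div_iff₀ (by positivity)]
      nlinarith
    have h4 : 1 ≤ D ^ 2 := one_le_pow₀ hD
    rw [hC]
    nlinarith [mul_le_mul_of_nonneg_right h4 hspos.le]
  obtain ⟨Λ, hΛ⟩ : ∃ Λ, Λ = Real.sqrt (40 * C) := ⟨_, rfl⟩
  have hΛ0 : 0 < Λ := by rw [hΛ]; exact Real.sqrt_pos.2 (by positivity)
  have hΛle : Λ ≤ 204 * (D * Real.sqrt s) := by
    rw [hΛ]
    refine Real.sqrt_le_iff.2 ⟨by positivity, ?_⟩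
    rw [mul_pow, mul_pow, Real.sq_sqrt hspos.le]
    nlinarith [mul_pos (pow_pos (lt_of_lt_of_le one_pos hD) 2) hspos]
  intro E hE hEΩ hEvol P hPer
  have key : (volume Ω).toReal ≤ 3 * (5 / 2 * Λ) * P := by
    refine perim (Fin n) Ω ho hconv hbd h0 E hE hEΩ hEvol P hPer (5 / 2 * Λ)
      (by positivity) ?_
    intro r hr0 hr1 f L M hf hf12 hV
    have hDr : IsCompact (r • closure Ω) := hcl.smul r
    have hDc : Convex ℝ (r • closure Ω) := hcc.smul r
    have hDv : 0 < volume (r • closure Ω) := by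
      rw [Measure.addHaar_smul]
      refine ENNReal.mul_pos (ENNReal.ofReal_pos.2 ?_).ne' hvcl.ne'
      positivity
    have hPr : ∀ v : Eu (Fin n) → ℝ, ContDiff ℝ 1 v →
        VV (r • closure Ω) v ≤ C * EV (r • closure Ω) fun x => ‖fderiv ℝ v x‖ ^ 2 := by
      intro v hv
      have hvr : ContDiff ℝ 1 fun x => v (r • x) := hv.comp (contDiff_const_smul r)
      have h1 := hP (fun x => v (r • x)) hvr
      have h2 : VV (r • closure Ω) v = VV (closure Ω) fun x => v (r • x) := by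
        unfold VV
        rw [EV_scale ho hconv r hr0, EV_scale ho hconv r hr0, hEVc, hEVc]
      have h3 : ∀ x, ‖fderiv ℝ (fun x => v (r • x)) x‖ ^ 2 = r ^ 2 * ‖fderiv ℝ v (r • x)‖ ^ 2 := by
        intro x
        have h4 : fderiv ℝ (fun x => v (r • x)) x = r • fderiv ℝ v (r • x) := by
          have h5 : HasFDerivAt (fun x : Eu (Fin n) => r • x)
              (r • ContinuousLinearMap.id ℝ (Eu (Fin n))) x :=
            (hasFDerivAt_id x).const_smul r
          have h6 := ((hv.differentiable (by norm_num)) (r • x)).hasFDerivAt.comp x h5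
          refine h6.fderiv.trans ?_
          ext y
          simp
        rw [h4, norm_smul, mul_pow, Real.norm_eq_abs, sq_abs]
      have h7 : EV (closure Ω) (fun x => ‖fderiv ℝ (fun x => v (r • x)) x‖ ^ 2) =
          r ^ 2 * EV (r • closure Ω) fun x => ‖fderiv ℝ v x‖ ^ 2 := by
        rw [EV_scale ho hconv r hr0, hEVc]
        unfold EV
        rw [← mul_div_assoc, ← integral_const_mul]
        simp only [h3]
      have h8 : 0 ≤ EV (r • closure Ω) fun x => ‖fderiv ℝ v x‖ ^ 2 := by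
        unfold EV
        exact div_nonneg (integral_nonneg fun x => sq_nonneg _) ENNReal.toReal_nonneg
      rw [h2]
      refine h1.trans ?_
      rw [h7]
      have h9 : r ^ 2 ≤ 1 := pow_le_one₀ hr0.le hr1.le
      nlinarith [mul_nonneg hC0.le h8]
    have h1 := cheeger (r • closure Ω) hDr hDc hDv C hC0 hPr f L M hf hf12
    rw [← hΛ] at h1
    set V := VV (r • closure Ω) f
    set Y := EV (r • closure Ω) fun x => ‖fderiv ℝ f x‖
    have h3 : 5 / 2 * Λ * Y = 5 / 2 * (Λ * Y) := by ring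
    rw [h3]
    have hV' : 1 / 5 < V := hV
    nlinarith
  have hPpos : 0 < P := by
    by_contra hcon
    push Not at hcon
    have : 3 * (5 / 2 * Λ) * P ≤ 0 := mul_nonpos_of_nonneg_of_nonpos (by positivity) hcon
    linarith
  obtain ⟨hsec1, hsec2, -⟩ := hs (Fin n) Ω ho hconv hbd h0 hsym a ha
  have hD0 : 0 < D := lt_of_lt_of_le one_pos hD
  have hkey2 : (volume Ω).toReal ≤ 1530 * (D * Real.sqrt s) * P := by
    refine key.trans ?_
    nlinarith [mul_le_mul_of_nonneg_right hΛle hPpos.le]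
  have hsq : (volume Ω).toReal ^ 2 ≤ 1530 ^ 2 * D ^ 2 * s * P ^ 2 := by
    refine (pow_le_pow_left₀ hvol.le hkey2 2).trans (le_of_eq ?_)
    have : Real.sqrt s ^ 2 = s := Real.sq_sqrt hspos.le
    calc (1530 * (D * Real.sqrt s) * P) ^ 2
        = 1530 ^ 2 * D ^ 2 * Real.sqrt s ^ 2 * P ^ 2 := by ring
      _ = _ := by rw [this]
  have h3 : (sec Ω a).toReal ^ 2 ≤ (Real.sqrt Cs * 1530 * D * P) ^ 2 := by
    have h4 : (sec Ω a).toReal ^ 2 * s ≤ Cs * (1530 ^ 2 * D ^ 2 * s * P ^ 2) :=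
      hsec2.trans (mul_le_mul_of_nonneg_left hsq hCs.le)
    have h5 : (Real.sqrt Cs * 1530 * D * P) ^ 2 = Cs * 1530 ^ 2 * D ^ 2 * P ^ 2 := by
      rw [mul_pow, mul_pow, mul_pow, Real.sq_sqrt hCs.le]
    rw [h5]
    have h6 : (sec Ω a).toReal ^ 2 * s ≤ (Cs * 1530 ^ 2 * D ^ 2 * P ^ 2) * s := by
      refine h4.trans (le_of_eq ?_)
      ring
    exact le_of_mul_le_mul_right h6 hspos
  have h7 : (sec Ω a).toReal ≤ Real.sqrt Cs * 1530 * D * P :=
    le_of_sq_le_sq h3 (by positivity)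
  rw [← ENNReal.ofReal_toReal hsec1]
  exact ENNReal.ofReal_le_ofReal h7

end main

end Run7.h110.KLS
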